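import Pool.Agent.Helper15_SIU.Stmts

/-!
# MP_021b97_an, modules KST (a fat Cantor set) and SHC (multiplicative measure of a shell)
-/

set_option autoImplicit false

open MeasureTheory Filter Topology
open scoped ENNReal

namespace Pool.Agent.SIU.H47

theorem kst : KstStmt := by
  have hc : (Set.range (fun q : ℚ => (q : ℝ))).Countable := Set.countable_range _
  have h0 : volume (Set.range (fun q : ℚ => (q : ℝ))) < 1 := by
    rw [hc.measure_zero volume]; exact one_pos
  obtain ⟨U, hU1, hU2, hU3⟩ := Set.exists_isOpen_lt_of_lt _ _ h0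
  refine ⟨Set.Icc 0 1 \ U, isCompact_Icc.diff hU2, fun q hq => hq.2 (hU1 ⟨q, rfl⟩), ?_⟩
  have h1 : volume (Set.Icc (0 : ℝ) 1) ≤ volume (Set.Icc (0 : ℝ) 1 \ U) + volume U := by
    refine (measure_mono (fun x hx => ?_)).trans (measure_union_le _ _)
    by_cases h : x ∈ U
    · exact Or.inr h
    · exact Or.inl ⟨hx, h⟩
  rw [Real.volume_Icc, sub_zero, ENNReal.ofReal_one] at h1
  rw [pos_iff_ne_zero]
  intro h2
  rw [h2, zero_add] at h1
  exact absurd hU3 (not_lt.mpr h1)

/-- the weight -/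
noncomputable def gg (c : ℂ) : ℝ≥0∞ :=
  if 1 / 2 ≤ ‖c‖ ^ 2 ∧ ‖c‖ ^ 2 ≤ 2 then ENNReal.ofReal (‖c‖ ^ 2)⁻¹ else 0

theorem measurable_gg : Measurable gg := by
  unfold gg
  refine Measurable.ite ?_ ?_ measurable_const
  · have h : Measurable (fun c : ℂ => ‖c‖ ^ 2) := by fun_prop
    exact (measurableSet_le measurable_const h).inter (measurableSet_le h measurable_const)
  · fun_prop

theorem shc : ShcStmt := by
  refine ⟨∫⁻ c : ℂ, gg c, ?_, ?_, ?_⟩
  · intro h
    rw [lintegral_eq_zero_iff measurable_gg] at h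
    have h2 : volume (Metric.ball (1 : ℂ) (1 / 10)) = 0 := by
      refine measure_mono_null (fun c hc => ?_) (ae_iff.mp h)
      rw [Metric.mem_ball, dist_eq_norm] at hc
      have e1 : ‖c‖ ≤ 11 / 10 := by
        have := norm_add_le (c - 1) (1 : ℂ)
        rw [sub_add_cancel, norm_one] at this
        linarith
      have e2 : 9 / 10 ≤ ‖c‖ := by
        have := norm_sub_le c (c - 1)
        rw [sub_sub_cancel, norm_one] at this
        linarith
      show ¬ gg c = (0 : ℂ → ℝ≥0∞) c
      have e3 : 1 / 2 ≤ ‖c‖ ^ 2 ∧ ‖c‖ ^ 2 ≤ 2 := ⟨by nlinarith, by nlinarith⟩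
      unfold gg
      rw [if_pos e3]
      show ¬ _ = (0 : ℝ≥0∞)
      rw [ENNReal.ofReal_eq_zero, not_le]
      positivity
    exact absurd h2 (Metric.measure_ball_pos volume _ (by norm_num)).ne'
  · have h1 : ∀ c : ℂ, gg c ≤ (Metric.closedBall (0 : ℂ) 2).indicator (fun _ => (2 : ℝ≥0∞)) c := by
      intro c
      unfold gg
      split_ifs with h
      · have hc : c ∈ Metric.closedBall (0 : ℂ) 2 := by
          rw [mem_closedBall_zero_iff]
          nlinarith [norm_nonneg c, h.2]
        rw [Set.indicator_of_mem hc]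
        refine ENNReal.ofReal_le_of_le_toReal ?_
        rw [ENNReal.toReal_ofNat]
        rw [inv_le_comm₀ (by linarith [h.1]) (by norm_num)]
        linarith [h.1]
      · exact zero_le
    refine ne_top_of_le_ne_top ?_ (lintegral_mono h1)
    rw [lintegral_indicator Metric.isClosed_closedBall.measurableSet, lintegral_const]
    refine ENNReal.mul_ne_top (by norm_num) ?_
    rw [Measure.restrict_apply_univ]
    exact (isCompact_closedBall (0 : ℂ) 2).measure_ne_top
  · intro a ha
    have hr : 0 < √a := Real.sqrt_pos.mpr ha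
    have hr2 : √a ^ 2 = a := Real.sq_sqrt ha.le
    have e1 : ∀ c : ℂ, (if 1 / 2 ≤ ‖c‖ ^ 2 * a ∧ ‖c‖ ^ 2 * a ≤ 2 then
        ENNReal.ofReal (‖c‖ ^ 2)⁻¹ else 0) = ENNReal.ofReal a * gg (√a • c) := by
      intro c
      unfold gg
      have e : ‖√a • c‖ ^ 2 = ‖c‖ ^ 2 * a := by
        rw [norm_smul, Real.norm_of_nonneg hr.le, mul_pow, hr2, mul_comm]
      rw [e]
      split_ifs with h
      · rw [← ENNReal.ofReal_mul ha.le]
        congr 1
        have : ‖c‖ ^ 2 ≠ 0 := by
          intro h0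
          rw [h0] at h
          linarith [h.1]
        field_simp
      · rw [mul_zero]
    have e2 : ∫⁻ c : ℂ, gg (√a • c) = ENNReal.ofReal a⁻¹ * ∫⁻ c : ℂ, gg c := by
      have h3 := Measure.map_addHaar_smul (volume : Measure ℂ) hr.ne'
      rw [Complex.finrank_real_complex, hr2, abs_of_pos (inv_pos.mpr ha)] at h3
      have h4 : ∫⁻ c : ℂ, gg c ∂(Measure.map (fun c : ℂ => √a • c) volume) =
          ∫⁻ c : ℂ, gg (√a • c) := lintegral_map measurable_gg (measurable_const_smul _)
      rw [← h4, h3, lintegral_smul_measure, smul_eq_mul]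
    simp only [e1]
    rw [lintegral_const_mul' _ _ ENNReal.ofReal_ne_top, e2, ← mul_assoc, ← ENNReal.ofReal_mul ha.le,
      mul_inv_cancel₀ ha.ne', ENNReal.ofReal_one, one_mul]

end Pool.Agent.SIU.H47
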